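import Pool.Agent.R104.Quiddity

set_option autoImplicit false

/-!
The rows of the prefix products of an irreducible solution of size at least `5` are pairwise
distinct up to sign; this bounds the size.
-/

namespace Pool.Agent.N343.QuiddityFinite

open Pool.Agent.R104.Quiddity Matrix

variable {R : Type*} [CommRing R]

theorem reducible_of_rotated {c d : List R} (h : c ~r d) (hd : Reducible d) : Reducible c := by
  obtain ⟨a, b, ha, ha3, hb, hb3, hab⟩ := hd
  refine ⟨a, b, ha, ha3, hb, hb3, ?_⟩
  rcases hab with hab | hab
  · exact Or.inl (h.trans hab)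
  · exact Or.inr (h.reverse.trans hab)

/-- linear algebra -/
theorem corner_of_row {A U : Matrix (Fin 2) (Fin 2) R} (hA : A.det = 1) {e : R}
    (h : ∀ k, (U * A) 0 k = e * A 0 k) : U 0 0 = e ∧ U 0 1 = 0 := by
  have h0 := h 0
  have h1 := h 1
  rw [Matrix.det_fin_two] at hA
  rw [Matrix.mul_apply, Fin.sum_univ_two] at h0 h1
  constructor
  · linear_combination (A 1 1) * h0 - (A 1 0) * h1 - (U 0 0) * hA + e * hA
  · linear_combination (A 0 0) * h1 - (A 0 1) * h0 - (U 0 1) * hA

/-- if the tops of two prefix products agree up to sign, then the solution is reducible -/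
theorem reducible_of_rows {l₁ u l₂ : List R} (hu : u ≠ []) (hl : l₂ ≠ [])
    (h5 : 5 ≤ (l₁ ++ (u ++ l₂)).length) (hc : IsSolution (l₁ ++ (u ++ l₂)))
    {e : R} (he : e = 1 ∨ e = -1) (h : ∀ k, M (l₁ ++ u) 0 k = e * M l₁ 0 k) :
    Reducible (l₁ ++ (u ++ l₂)) := by
  rw [M_append] at h
  obtain ⟨h00, h01⟩ := corner_of_row (det_M l₁) h
  rcases Nat.lt_or_ge (l₁.length + l₂.length) 3 with h3 | h3
  · -- the complementary block
    have hul : 3 ≤ u.length := by
      simp only [List.length_append] at h5
      omega
    have hrot : l₁ ++ (u ++ l₂) ~r u ++ ((l₂ ++ l₁) ++ []) := by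
      have h1 : l₁ ++ (u ++ l₂) ~r (u ++ l₂) ++ l₁ := List.isRotated_append
      simpa [List.append_assoc] using h1
    have hsol : IsSolution (u ++ ((l₂ ++ l₁) ++ [])) := by
      have := hc.of_mul
      simpa [List.append_assoc] using this
    apply reducible_of_rotated hrot
    apply reducible_of_block (u := l₂ ++ l₁) (l₁ := u) (l₂ := []) (by simp [hl]) (by simpa using hul)
      hsol
    -- the corner
    have hdet := det_M u
    rw [Matrix.det_fin_two, h00, h01, zero_mul, sub_zero] at hdet
    obtain ⟨-, hs⟩ := hsol
    rw [List.append_nil, M_append, M_append] at hs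
    rw [M_append]
    -- `X * U = ± 1`, hence `U * X = ± 1`
    have hs' : M u * (M l₁ * M l₂) = 1 ∨ M u * (M l₁ * M l₂) = -1 := by
      rcases hs with hs | hs
      · exact Or.inl (mul_eq_one_comm.1 hs)
      · right
        have h3 : (M l₁ * M l₂) * (-M u) = 1 := by rw [mul_neg, hs, neg_neg]
        have h4 := mul_eq_one_comm.1 h3
        rw [neg_mul] at h4
        rw [← neg_eq_iff_eq_neg]
        exact h4
    have hx : ∀ Y : Matrix (Fin 2) (Fin 2) R, (M u * Y) 0 0 = e * Y 0 0 := by
      intro Y
      rw [Matrix.mul_apply, Fin.sum_univ_two, h00, h01]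
      ring
    have hee : e * e = 1 := by rcases he with rfl | rfl <;> ring
    rcases hs' with hs | hs
    · have := hx (M l₁ * M l₂)
      rw [hs] at this
      have h6 : (M l₁ * M l₂) 0 0 = e := by
        have h7 : (1 : Matrix (Fin 2) (Fin 2) R) 0 0 = 1 := by simp
        rw [h7] at this
        linear_combination (-e) * this - (M l₁ * M l₂) 0 0 * hee
      rw [h6]; exact he
    · have := hx (M l₁ * M l₂)
      rw [hs] at this
      have h6 : (M l₁ * M l₂) 0 0 = -e := by
        have h7 : (-1 : Matrix (Fin 2) (Fin 2) R) 0 0 = -1 := by simp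
        rw [h7] at this
        linear_combination (-e) * this - (M l₁ * M l₂) 0 0 * hee
      rw [h6]
      rcases he with rfl | rfl
      · exact Or.inr rfl
      · exact Or.inl (neg_neg 1)
  · apply reducible_of_block hu h3 hc
    rw [h00]
    exact he

/-- the top row of the product of the first `i` factors -/
def row (c : List R) (i : ℕ) : Fin 2 → R := fun k => M (c.take i) 0 k

theorem row_ne {c : List R} (hc : IsIrreducible c) (h5 : 5 ≤ c.length) {i j : ℕ} (hij : i < j)
    (hj : j < c.length) {e : R} (he : e = 1 ∨ e = -1) : row c j ≠ fun k => e * row c i k := by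
  intro h
  apply hc.2.2
  have e1 : c = c.take i ++ ((c.drop i).take (j - i) ++ c.drop j) := by
    conv_lhs => rw [← List.take_append_drop i c]
    congr 1
    conv_lhs => rw [← List.take_append_drop (j - i) (c.drop i)]
    rw [List.drop_drop]
    congr 2
    omega
  have e2 : c.take j = c.take i ++ (c.drop i).take (j - i) := by
    conv_lhs => rw [show j = i + (j - i) by omega]
    rw [List.take_add]
  have hsol := hc.1
  rw [e1] at hsol ⊢
  refine reducible_of_rows ?_ ?_ (by rw [← e1]; exact h5) hsol he ?_
  · intro h0
    have := congrArg List.length h0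
    simp at this
    omega
  · intro h0
    have := congrArg List.length h0
    simp at this
    omega
  · intro k
    rw [← e2]
    exact congrFun h k

theorem row_ne_zero [Nontrivial R] (c : List R) (i : ℕ) : row c i ≠ 0 := by
  intro h
  have hd := det_M (c.take i)
  rw [Matrix.det_fin_two] at hd
  have h0 : M (c.take i) 0 0 = 0 := congrFun h 0
  have h1 : M (c.take i) 0 1 = 0 := congrFun h 1
  rw [h0, h1] at hd
  simp at hd

theorem row_ne_neg (c : List R) (h2 : (2 : R) ≠ 0) (i : ℕ) : row c i ≠ fun k => -1 * row c i k := by
  intro h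
  apply h2
  have hd := det_M (c.take i)
  rw [Matrix.det_fin_two] at hd
  have h0 : M (c.take i) 0 0 = -1 * M (c.take i) 0 0 := congrFun h 0
  have h1 : M (c.take i) 0 1 = -1 * M (c.take i) 0 1 := congrFun h 1
  linear_combination (-2) * hd + (M (c.take i) 1 1) * h0 - (M (c.take i) 1 0) * h1

theorem length_le_aux {N : ℕ} (hN : 3 ≤ N) {c : List (ZMod N)} (hc : IsIrreducible c)
    (h5 : 5 ≤ c.length) : 2 * c.length ≤ N ^ 2 - 1 := by
  classical
  have : NeZero N := ⟨by omega⟩
  have : Fact (1 < N) := ⟨by omega⟩
  have h2 : (2 : ZMod N) ≠ 0 := by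
    intro h
    have h' : ((2 : ℕ) : ZMod N) = 0 := by exact_mod_cast h
    rw [ZMod.natCast_eq_zero_iff] at h'
    have := Nat.le_of_dvd (by norm_num) h'
    omega
  let g : Fin c.length × Bool → {v : Fin 2 → ZMod N // v ≠ 0} := fun p =>
    if p.2 then ⟨row c p.1, row_ne_zero c _⟩ else ⟨fun k => -1 * row c p.1 k, by
      intro h
      apply row_ne_zero c p.1
      funext k
      have := congrFun h k
      simpa using this⟩
  have key : ∀ (i j : Fin c.length) (e e' : ZMod N), (e = 1 ∨ e = -1) → (e' = 1 ∨ e' = -1) →
      (fun k => e * row c i k) = (fun k => e' * row c j k) → i < j → False := by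
    intro i j e e' he he' h hij
    apply row_ne hc h5 (e := e * e') (Fin.lt_def.1 hij) j.2
    · rcases he with rfl | rfl <;> rcases he' with rfl | rfl <;> simp
    · funext k
      have := congrFun h k
      have h1 : e' * e' = 1 := by rcases he' with rfl | rfl <;> ring
      linear_combination (-e') * this - row c j k * h1
  have hg : Function.Injective g := by
    rintro ⟨i, s⟩ ⟨j, t⟩ h
    have hs : ∀ (i : Fin c.length) (s : Bool), ∃ e : ZMod N, (e = 1 ∨ e = -1) ∧
        (e = 1 ↔ s = true) ∧ (g (i, s)).1 = fun k => e * row c i k := by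
      intro i s
      cases s
      · refine ⟨-1, Or.inr rfl, ?_, rfl⟩
        simp only [Bool.false_eq_true, iff_false]
        intro h
        apply h2
        linear_combination (-1) * h
      · refine ⟨1, Or.inl rfl, by simp, ?_⟩
        funext k
        simp [g]
    obtain ⟨e, he, hes, hge⟩ := hs i s
    obtain ⟨e', he', hes', hge'⟩ := hs j t
    have h1 : (fun k => e * row c i k) = (fun k => e' * row c j k) := by
      rw [← hge, ← hge', h]
    rcases lt_trichotomy i j with hij | hij | hij
    · exact (key i j e e' he he' h1 hij).elim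
    · subst hij
      congr 1
      by_contra hst
      have hee : e ≠ e' := by
        rintro rfl
        apply hst
        have : (s = true) ↔ (t = true) := hes.symm.trans hes'
        cases s <;> cases t <;> simp_all
      apply row_ne_neg c h2 i
      funext k
      have := congrFun h1 k
      rcases he with rfl | rfl <;> rcases he' with rfl | rfl
      · exact absurd rfl hee
      · linear_combination this
      · linear_combination (-1) * this
      · exact absurd rfl hee
    · exact (key j i e' e he' he h1.symm hij).elim
  have hcard := Fintype.card_le_of_injective g hg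
  rw [Fintype.card_prod, Fintype.card_fin, Fintype.card_bool, Fintype.card_subtype_compl,
    Fintype.card_pi, Fintype.card_subtype_eq] at hcard
  simp only [ZMod.card, Finset.prod_const, Finset.card_univ, Fintype.card_fin] at hcard
  omega

theorem length_le_two {c : List (ZMod 2)} (hc : IsIrreducible c) : c.length ≤ 4 := by
  classical
  by_contra h
  have h5 : 5 ≤ c.length := by omega
  let g : Fin c.length → {v : Fin 2 → ZMod 2 // v ≠ 0} := fun p => ⟨row c p, row_ne_zero c _⟩
  have hg : Function.Injective g := by
    intro i j h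
    have h1 : row c i = row c j := congrArg Subtype.val h
    rcases lt_trichotomy i j with hij | hij | hij
    · refine (row_ne hc h5 (Fin.lt_def.1 hij) j.2 (Or.inl rfl) ?_).elim
      rw [← h1]; funext k; rw [one_mul]
    · exact hij
    · refine (row_ne hc h5 (Fin.lt_def.1 hij) i.2 (Or.inl rfl) ?_).elim
      rw [← h1]; funext k; rw [one_mul]
  have hcard := Fintype.card_le_of_injective g hg
  rw [Fintype.card_fin, Fintype.card_subtype_compl,
    Fintype.card_pi, Fintype.card_subtype_eq] at hcard
  simp only [ZMod.card, Finset.prod_const, Finset.card_univ, Fintype.card_fin] at hcard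
  omega

theorem length_le {N : ℕ} (hN : 2 ≤ N) {c : List (ZMod N)} (hc : IsIrreducible c) :
    c.length ≤ max 4 ((N ^ 2 - 1) / 2) := by
  rcases Nat.lt_or_ge c.length 5 with h | h
  · exact le_max_of_le_left (by omega)
  · apply le_max_of_le_right
    rcases Nat.lt_or_ge 2 N with h2 | h2
    · have := length_le_aux h2 hc h
      omega
    · obtain rfl : N = 2 := by omega
      have := length_le_two hc
      omega

theorem finite {N : ℕ} (hN : 2 ≤ N) : {c : List (ZMod N) | IsIrreducible c}.Finite := by
  have : NeZero N := ⟨by omega⟩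
  have : Finite (ZMod N) := inferInstance
  refine (List.finite_length_le (ZMod N) (max 4 ((N ^ 2 - 1) / 2))).subset ?_
  intro c hc
  exact length_le hN hc

end Pool.Agent.N343.QuiddityFinite
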